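import Pool.Agent.Q241.SPL.Gen

/-!
# Zero-free half planes from one-sided bounds at sparse sets of points

Let `0 ≤ θ < 1`, `c ≥ 1/2`. There are no zeros of `ζ` with real part `> c` iff for every `ε > 0` and all large `x`
some `y` in `[x - x^θ, x + x^θ]` satisfies `M(y) ≤ y^(c+ε)`, and the same with `-M`, `L`, `-L` for `M`. For `c = 1/2`
this is the Riemann hypothesis. A set of arguments which meets all these intervals suffices.
-/

set_option autoImplicit false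

open Filter Topology

namespace Pool.Agent.Results.MP_a499ba_nt.SampledHalfPlanes

/-- the summatory function of the Moebius function -/
noncomputable def M (x : ℝ) : ℝ := ∑ n ∈ Finset.Icc 1 ⌊x⌋₊, ((ArithmeticFunction.moebius n : ℤ) : ℝ)

/-- the summatory function of the Liouville function -/
noncomputable def L (x : ℝ) : ℝ := ∑ n ∈ Finset.Icc 1 ⌊x⌋₊, ((ArithmeticFunction.liouville n : ℤ) : ℝ)

/-- the nontrivial zeros of the Riemann zeta function -/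
def Zer : Set ℂ := {ρ : ℂ | riemannZeta ρ = 0 ∧ 0 < ρ.re ∧ ρ.re < 1}

/-- for all large `x` the interval `[x - x^θ, x + x^θ]` contains a point `y` with `s A(y) ≤ D y^c` -/
def Thin (θ s : ℝ) (A : ℝ → ℝ) (D c : ℝ) : Prop :=
  ∃ x₀ : ℝ, ∀ x : ℝ, x₀ ≤ x → ∃ y : ℝ, |y - x| ≤ x ^ θ ∧ s * A y ≤ D * y ^ c


theorem result {θ : ℝ} (hθ : θ < 1) :
    -- zero-free half planes
    (∀ c : ℝ, 1 / 2 ≤ c → ∀ s : ℝ, s = 1 ∨ s = -1 →
      ((∀ ρ ∈ Zer, ρ.re ≤ c) ↔ ∀ ε : ℝ, 0 < ε → Thin θ s M 1 (c + ε)) ∧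
      ((∀ ρ ∈ Zer, ρ.re ≤ c) ↔ ∀ ε : ℝ, 0 < ε → Thin θ s L 1 (c + ε))) ∧
    -- bounds on a set which meets all the intervals suffice
    (∀ P : Set ℝ, (∃ x₀ : ℝ, ∀ x : ℝ, x₀ ≤ x → ∃ y ∈ P, |y - x| ≤ x ^ θ) → ∀ (s : ℝ) (A : ℝ → ℝ) (D c : ℝ),
      (∃ y₀ : ℝ, ∀ y ∈ P, y₀ ≤ y → s * A y ≤ D * y ^ c) → Thin θ s A D c) := by
  -- the sets of good points
  have hthin : ∀ {s : ℝ} {A : ℝ → ℝ} {D c : ℝ}, Thin θ s A D c →
      Q241SPL.Meets θ {y : ℝ | s * A y ≤ D * y ^ c} := by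
    rintro s A D c ⟨x₀, h⟩
    refine ⟨x₀, fun x hx => ?_⟩
    obtain ⟨y, h1, h2⟩ := h x hx
    exact ⟨y, h2, h1⟩
  have hlarge : ∀ Y : ℝ, ∃ X : ℝ, ∀ x : ℝ, X ≤ x → ∀ y : ℝ, |y - x| ≤ x ^ θ → Y ≤ y := by
    intro Y
    obtain ⟨v₁, hv₁, h⟩ := Q241SPL.ratio (c := 0) hθ (show (0:ℝ) < 1 by norm_num) 0
    refine ⟨max (Real.exp v₁) (2 * |Y|), fun x hx y hy => ?_⟩
    have hx0 : 0 < x := (Real.exp_pos v₁).trans_le ((le_max_left _ _).trans hx)
    have h1 := (h (Real.log x) (by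
      rw [Real.le_log_iff_exp_le hx0]; exact (le_max_left _ _).trans hx) y (by
      rw [Real.exp_log hx0, mul_comm, Real.exp_mul, Real.exp_log hx0]; exact hy)).1
    rw [Real.exp_log hx0] at h1
    have h2 := (le_max_right _ _).trans hx
    have h3 := le_abs_self Y
    linarith
  refine ⟨?_, ?_⟩
  · -- zero-free half planes
    have key : ∀ {f : ℕ → ℝ} {Q : ℂ → ℂ}, Q241SPL.QD f Q → ∀ (c : ℝ), 1 / 2 ≤ c → ∀ (s : ℝ) (A : ℝ → ℝ),
        (∀ y, s * A y = Q241SPL.S f y) → ((∀ ρ ∈ Zer, ρ.re ≤ c) ↔ ∀ ε : ℝ, 0 < ε → Thin θ s A 1 (c + ε)) := by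
      intro f Q q c hc s A hA
      constructor
      · intro h ε hε
        obtain ⟨y₀, h1⟩ := (q.half_plane hθ (P := Set.univ) ⟨1, fun x hx => ⟨x, Set.mem_univ _, by
          rw [sub_self, abs_zero]; positivity⟩⟩ hc).1 h ε hε
        refine ⟨max y₀ 0, fun x hx => ⟨x, ?_, ?_⟩⟩
        · rw [sub_self, abs_zero]
          have : 0 ≤ x := (le_max_right _ _).trans hx
          positivity
        · rw [one_mul, hA]
          exact h1 x (Set.mem_univ _) ((le_max_left _ _).trans hx)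
      · intro h ρ hρ
        refine le_of_forall_pos_le_add fun ε hε => ?_
        refine (q.half_plane hθ (hthin (h (ε / 2) (by positivity))) (c := c + ε / 2) (by linarith)).2 ?_ ρ hρ |>.trans
          (by linarith)
        intro ε' hε'
        refine ⟨1, fun y hy hy1 => ?_⟩
        have h4 : s * A y ≤ 1 * y ^ (c + ε / 2) := hy
        rw [hA, one_mul] at h4
        exact h4.trans (Real.rpow_le_rpow_of_exponent_le hy1 (by linarith))
    intro c hc s hs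
    rcases hs with rfl | rfl
    · exact ⟨key Q241SPL.qd_mu c hc 1 M (fun y => one_mul _), key Q241SPL.qd_lam c hc 1 L (fun y => one_mul _)⟩
    · exact ⟨key Q241SPL.qd_mu.neg c hc (-1) M (fun y => by rw [neg_one_mul, Q241SPL.S_neg]; rfl),
        key Q241SPL.qd_lam.neg c hc (-1) L (fun y => by rw [neg_one_mul, Q241SPL.S_neg]; rfl)⟩
  · rintro P ⟨x₀, hP⟩ s A D c ⟨y₀, h⟩
    obtain ⟨X, hX⟩ := hlarge y₀
    refine ⟨max x₀ X, fun x hx => ?_⟩
    obtain ⟨y, hyP, hy⟩ := hP x ((le_max_left _ _).trans hx)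
    exact ⟨y, hy, h y hyP (hX x ((le_max_right _ _).trans hx) y hy)⟩

end Pool.Agent.Results.MP_a499ba_nt.SampledHalfPlanes
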