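import Pool.Agent.Q241.SPL.Gen

/-!
# Ingham's sums bound the values of `M(x)` at sparse sets of points

Let `0 ≤ θ < 1`. If for all large `x` the interval `[x - x^θ, x + x^θ]` contains at least one point `y` with
`± M(y) ≤ D √y`, then RH holds, all zeros are simple and all the sums of Ingham (which Odlyzko and
te Riele evaluated, for bounds at all `y`) are at most `D`. It is enough to know the values at the `k`-th powers,
for one fixed `k`.
-/

set_option autoImplicit false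

open Filter Topology

namespace Pool.Agent.Results.MP_a499ba_nt.SampledMertens

/-- the summatory function of the Moebius function -/
noncomputable def M (x : ℝ) : ℝ := ∑ n ∈ Finset.Icc 1 ⌊x⌋₊, ((ArithmeticFunction.moebius n : ℤ) : ℝ)

/-- the nontrivial zeros of the Riemann zeta function -/
def Zer : Set ℂ := {ρ : ℂ | riemannZeta ρ = 0 ∧ 0 < ρ.re ∧ ρ.re < 1}

/-- for all large `x` the interval `[x - x^θ, x + x^θ]` contains a point `y` with `s A(y) ≤ D y^c` -/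
def Thin (θ s : ℝ) (A : ℝ → ℝ) (D c : ℝ) : Prop :=
  ∃ x₀ : ℝ, ∀ x : ℝ, x₀ ≤ x → ∃ y : ℝ, |y - x| ≤ x ^ θ ∧ s * A y ≤ D * y ^ c

/-- Ingham's sum `∑_{|γ| < T} (1 - |γ|/T) e^(iγv) /(ρ ζ'(ρ))` over the nontrivial zeros `ρ` with
ordinate `γ`, `|γ| < T` (finitely many) -/
noncomputable def Ingham (T v : ℝ) : ℝ :=
  ∑ᶠ ρ ∈ {ρ : ℂ | ρ ∈ Zer ∧ |ρ.im| < T},
    (1 - |ρ.im| / T) * (Complex.exp (ρ.im * v * Complex.I) * (1 / (ρ * deriv riemannZeta ρ))).re


theorem result {θ : ℝ} (hθ0 : 0 ≤ θ) (hθ : θ < 1) :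
    (∀ s : ℝ, s = 1 ∨ s = -1 → ∀ D : ℝ, Thin θ s M D (1 / 2) →
      (∀ ρ ∈ Zer, ρ.re = 1 / 2 ∧ deriv riemannZeta ρ ≠ 0 ∧ 1 / ‖ρ * deriv riemannZeta ρ‖ ≤ D) ∧
      ∀ T : ℝ, 0 < T → ∀ v : ℝ, s * Ingham T v ≤ D) ∧
    -- it holds when the values at the `k`-th powers are bounded, for one `k`
    (∀ k : ℕ, 1 ≤ k → θ = 1 - 1 / (2 * (k : ℝ)) → ∀ s D : ℝ,
      (∃ n₀ : ℕ, ∀ n : ℕ, n₀ ≤ n → s * M ((n : ℝ) ^ k) ≤ D * ((n : ℝ) ^ k) ^ (1 / 2 : ℝ)) →
      Thin θ s M D (1 / 2)) := by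
  -- the sets of good points
  have hthin : ∀ {s : ℝ} {A : ℝ → ℝ} {D c : ℝ}, Thin θ s A D c →
      Q241SPL.Meets θ {y : ℝ | s * A y ≤ D * y ^ c} := by
    rintro s A D c ⟨x₀, h⟩
    refine ⟨x₀, fun x hx => ?_⟩
    obtain ⟨y, h1, h2⟩ := h x hx
    exact ⟨y, h2, h1⟩
  have hlarge : ∀ Y : ℝ, ∃ X : ℝ, ∀ x : ℝ, X ≤ x → ∀ y : ℝ, |y - x| ≤ x ^ θ → Y ≤ y := by
    intro Y
    obtain ⟨v₁, hv₁, h⟩ := Q241SPL.ratio (c := 0) hθ (show (0:ℝ) < 1 by norm_num) 0
    refine ⟨max (Real.exp v₁) (2 * |Y|), fun x hx y hy => ?_⟩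
    have hx0 : 0 < x := (Real.exp_pos v₁).trans_le ((le_max_left _ _).trans hx)
    have h1 := (h (Real.log x) (by
      rw [Real.le_log_iff_exp_le hx0]; exact (le_max_left _ _).trans hx) y (by
      rw [Real.exp_log hx0, mul_comm, Real.exp_mul, Real.exp_log hx0]; exact hy)).1
    rw [Real.exp_log hx0] at h1
    have h2 := (le_max_right _ _).trans hx
    have h3 := le_abs_self Y
    linarith
  refine ⟨?_, ?_⟩
  · intro s hs D hD
    have hP := hthin hD
    rcases hs with rfl | rfl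
    · obtain ⟨h1, h2, h3⟩ := Q241SPL.qd_mu.final Q241SPL.beta_mu hθ hP (D := D) (by
        refine ⟨0, fun y hy _ => ?_⟩
        have h4 : 1 * M y ≤ D * y ^ (1 / 2 : ℝ) := hy
        rw [one_mul] at h4
        exact h4)
      refine ⟨fun ρ hρ => ⟨(h1 ρ hρ).1, (h1 ρ hρ).2, ?_⟩, fun T hT v => ?_⟩
      · have := h2 ρ hρ
        simpa using this
      · have := h3 T hT v
        simp only [mul_zero, zero_div, Complex.zero_re, zero_add] at this
        rw [one_mul]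
        exact this
    · obtain ⟨h1, h2, h3⟩ := Q241SPL.qd_mu.neg.final (β := 0) (by
        have := Q241SPL.beta_mu.neg
        rw [neg_zero] at this
        refine this.congr fun σ => by ring) hθ hP (D := D) (by
        refine ⟨0, fun y hy _ => ?_⟩
        have h4 : -1 * M y ≤ D * y ^ (1 / 2 : ℝ) := hy
        rw [Q241SPL.S_neg]
        rw [neg_one_mul] at h4
        exact h4)
      refine ⟨fun ρ hρ => ⟨(h1 ρ hρ).1, (h1 ρ hρ).2, ?_⟩, fun T hT v => ?_⟩
      · have := h2 ρ hρ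
        simpa using this
      · have := h3 T hT v
        simp only [mul_zero, zero_div, Complex.zero_re, zero_add] at this
        refine le_trans (le_of_eq ?_) this
        unfold Ingham
        rw [neg_one_mul, ← finsum_neg_distrib]
        refine finsum_congr fun ρ => ?_
        rw [← finsum_neg_distrib]
        refine finsum_congr fun _ => ?_
        rw [neg_div, mul_neg, Complex.neg_re, mul_neg]
  · rintro k hk rfl s D ⟨n₀, h⟩
    obtain ⟨X, hX⟩ := hlarge ((n₀ : ℝ) ^ k)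
    obtain ⟨x₀, hx₀⟩ := Q241SPL.meets_powers hk
    refine ⟨max x₀ X, fun x hx => ?_⟩
    obtain ⟨y, ⟨n, rfl⟩, hy⟩ := hx₀ x ((le_max_left _ _).trans hx)
    have h1 := hX x ((le_max_right _ _).trans hx) _ hy
    refine ⟨_, hy, h n ?_⟩
    by_contra hn
    push Not at hn
    have h2 : (n : ℝ) < n₀ := by exact_mod_cast hn
    have h3 : (n : ℝ) ^ k < (n₀ : ℝ) ^ k := pow_lt_pow_left₀ h2 (Nat.cast_nonneg n) (by omega)
    linarith

end Pool.Agent.Results.MP_a499ba_nt.SampledMertens
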