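import Pool.Agent.Q241.SPL.Gen

/-!
# Whole intervals of large values of `M(x)` of both signs

Let `0 ≤ θ < 1`. For every nontrivial zero `ρ` there is `c > 0` such that every window `[X, X log X]`, `X` large,
contains a whole interval `[x - x^θ, x + x^θ]` on which `M(y) ≥ c y^(Re ρ)`, and another one on which
`M(y) ≤ -c y^(Re ρ)`; with an additional factor `log y` if `ρ` is a multiple zero. Nothing is assumed.
-/

set_option autoImplicit false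

open Filter Topology

namespace Pool.Agent.Results.MP_a499ba_nt.ThickIntervals

/-- the summatory function of the Moebius function -/
noncomputable def M (x : ℝ) : ℝ := ∑ n ∈ Finset.Icc 1 ⌊x⌋₊, ((ArithmeticFunction.moebius n : ℤ) : ℝ)

/-- the nontrivial zeros of the Riemann zeta function -/
def Zer : Set ℂ := {ρ : ℂ | riemannZeta ρ = 0 ∧ 0 < ρ.re ∧ ρ.re < 1}


theorem result {θ : ℝ} (hθ0 : 0 ≤ θ) (hθ : θ < 1) :
    (∀ ρ ∈ Zer, ∃ c : ℝ, 0 < c ∧ ∀ᶠ X : ℝ in atTop, ∀ s : ℝ, s = 1 ∨ s = -1 →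
      ∃ x : ℝ, X ≤ x - x ^ θ ∧ x + x ^ θ ≤ X * Real.log X ∧
        ∀ y : ℝ, |y - x| ≤ x ^ θ → c * y ^ ρ.re ≤ s * M y) ∧
    (∀ ρ ∈ Zer, deriv riemannZeta ρ = 0 → ∃ c : ℝ, 0 < c ∧ ∀ᶠ X : ℝ in atTop, ∀ s : ℝ, s = 1 ∨ s = -1 →
      ∃ x : ℝ, X ≤ x - x ^ θ ∧ x + x ^ θ ≤ X * Real.log X ∧
        ∀ y : ℝ, |y - x| ≤ x ^ θ → c * (y ^ ρ.re * Real.log y) ≤ s * M y) :=
  ⟨fun ρ hρ => Q241SPL.both_signs hθ0 hθ hρ, fun ρ hρ hd => Q241SPL.both_signs_multiple hθ0 hθ hρ hd⟩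

end Pool.Agent.Results.MP_a499ba_nt.ThickIntervals
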